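import Pool.Agent.Helper66.NI.Stmts

open MeasureTheory Filter Topology
open scoped ENNReal

namespace Pool.Agent.Helper66.NI

section
variable {Ω : Type} [MeasurableSpace Ω] {μ : Measure Ω} [IsFiniteMeasure μ]

lemma rot_int1 (f : Lp ℝ 4 μ) : Integrable (fun ω => f ω) μ :=
  (Lp.memLp f).integrable (by norm_num)

lemma rot_int4 (hB : ST_BAS) (f : Lp ℝ 4 μ) : Integrable (fun ω => f ω ^ 4) μ := by
  refine ((hB Ω μ).1 f f f f).congr (ae_of_all _ fun ω => ?_)
  simp only
  ring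

lemma rot_int3 (hB : ST_BAS) (f : Lp ℝ 4 μ) : Integrable (fun ω => f ω ^ 3) μ := by
  refine Integrable.mono' ((integrable_const (1 : ℝ)).add (rot_int4 hB f))
    ((rot_int1 f).aestronglyMeasurable.pow 3) (ae_of_all _ fun ω => ?_)
  simp only [Pi.add_apply]
  rw [Real.norm_eq_abs, abs_pow]
  have h0 := abs_nonneg (f ω)
  have h1 : f ω ^ 4 = |f ω| ^ 4 := by rw [← abs_pow, abs_of_nonneg (by positivity)]
  rw [h1]
  set t := |f ω|
  nlinarith [sq_nonneg (t - 1), sq_nonneg (t ^ 2 - 1), sq_nonneg (t ^ 2 - t), mul_nonneg h0 h0]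

lemma rot_add (f g : Lp ℝ 4 μ) (A : Set Ω) :
    ∫ ω in A, (f + g : Lp ℝ 4 μ) ω ∂μ = (∫ ω in A, f ω ∂μ) + ∫ ω in A, g ω ∂μ := by
  rw [← integral_add (rot_int1 f).integrableOn (rot_int1 g).integrableOn]
  refine integral_congr_ae (ae_restrict_of_ae ?_)
  filter_upwards [Lp.coeFn_add f g] with ω h
  rw [h, Pi.add_apply]

lemma rot_smul (c : ℝ) (f : Lp ℝ 4 μ) (A : Set Ω) :
    ∫ ω in A, (c • f : Lp ℝ 4 μ) ω ∂μ = c * ∫ ω in A, f ω ∂μ := by
  rw [← integral_const_mul]
  refine integral_congr_ae (ae_restrict_of_ae ?_)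
  filter_upwards [Lp.coeFn_smul c f] with ω h
  rw [h, Pi.smul_apply, smul_eq_mul]

lemma rot_sub (f g : Lp ℝ 4 μ) (A : Set Ω) :
    ∫ ω in A, (f - g : Lp ℝ 4 μ) ω ∂μ = (∫ ω in A, f ω ∂μ) - ∫ ω in A, g ω ∂μ := by
  rw [← integral_sub (rot_int1 f).integrableOn (rot_int1 g).integrableOn]
  refine integral_congr_ae (ae_restrict_of_ae ?_)
  filter_upwards [Lp.coeFn_sub f g] with ω h
  rw [h, Pi.sub_apply]

lemma rot_ind {A B : Set Ω} (hA : MeasurableSet A) (hB : MeasurableSet B) :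
    ∫ ω in A, (ind μ hB) ω ∂μ = μ.real (A ∩ B) := by
  have h1 : ∫ ω in A, (ind μ hB) ω ∂μ = ∫ ω in A, B.indicator (fun _ => (1 : ℝ)) ω ∂μ := by
    refine integral_congr_ae (ae_restrict_of_ae ?_)
    exact indicatorConstLp_coeFn
  rw [h1, setIntegral_indicator hB, setIntegral_const, smul_eq_mul, mul_one]

/-- Jensen -/
lemma rot_jensen (hB : ST_BAS) (f : Lp ℝ 4 μ) {A : Set Ω} {h : ℝ}
    (hh : 0 < h) (hAh : μ.real A = h) :
    (∫ ω in A, f ω ∂μ) ^ 4 ≤ h ^ 3 * ∫ ω in A, f ω ^ 4 ∂μ := by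
  set S := ∫ ω in A, f ω ∂μ with hS
  set m := S / h with hm
  have h1 : ∫ ω in A, (m ^ 4 + 4 * m ^ 3 * (f ω - m)) ∂μ ≤ ∫ ω in A, f ω ^ 4 ∂μ := by
    refine setIntegral_mono ?_ (rot_int4 hB f).integrableOn fun ω => ?_
    · exact ((integrable_const _).add
        (((rot_int1 f).sub (integrable_const m)).const_mul (4 * m ^ 3))).integrableOn
    · simp only
      have e : f ω ^ 4 - (m ^ 4 + 4 * m ^ 3 * (f ω - m)) =
        (f ω - m) ^ 2 * ((f ω + m) ^ 2 + 2 * m ^ 2) := by ring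
      have : 0 ≤ (f ω - m) ^ 2 * ((f ω + m) ^ 2 + 2 * m ^ 2) := by positivity
      linarith
  have h2 : ∫ ω in A, (m ^ 4 + 4 * m ^ 3 * (f ω - m)) ∂μ = h * m ^ 4 := by
    rw [integral_add, integral_const_mul, integral_sub,
      setIntegral_const, setIntegral_const, hAh, ← hS, smul_eq_mul, smul_eq_mul]
    · rw [hm]
      field_simp
      ring
    · exact (rot_int1 f).integrableOn
    · exact integrable_const m
    · exact integrable_const _
    · exact (((rot_int1 f).integrableOn.sub (integrable_const m)).const_mul (4 * m ^ 3))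
  rw [h2] at h1
  have h3 : S = h * m := by rw [hm]; field_simp
  rw [h3, mul_pow]
  have h4 : 0 < h ^ 3 := by positivity
  calc h ^ 4 * m ^ 4 = h ^ 3 * (h * m ^ 4) := by ring
    _ ≤ h ^ 3 * ∫ ω in A, f ω ^ 4 ∂μ := mul_le_mul_of_nonneg_left h1 h4.le

/-- the algebraic double integral inequality -/
lemma rot_double (hB : ST_BAS) (f : Lp ℝ 4 μ) {A B : Set Ω} {h : ℝ} (hAh : μ.real A = h) (hBh : μ.real B = h) :
    (∫ ω in A, f ω ^ 3 ∂μ) * (∫ ω in B, f ω ∂μ) - (∫ ω in B, f ω ^ 3 ∂μ) * (∫ ω in A, f ω ∂μ) ≤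
      Real.sqrt 2 / 4 * (h * (∫ ω in A, f ω ^ 4 ∂μ) + h * ∫ ω in B, f ω ^ 4 ∂μ) := by
  set s := Real.sqrt 2 with hs
  have hs2 : s ^ 2 = 2 := Real.sq_sqrt (by norm_num)
  have hs0 : 0 ≤ s := Real.sqrt_nonneg 2
  have key : ∀ x y : ℝ, 0 ≤ s / 4 * (x ^ 4 + y ^ 4) - x ^ 3 * y + x * y ^ 3 := by
    intro x y
    have e : s / 4 * (x ^ 4 + y ^ 4) - x ^ 3 * y + x * y ^ 3 =
        s / 4 * (x ^ 2 - s * x * y - y ^ 2) ^ 2 := by
      linear_combination (x ^ 3 * y / 2 - x * y ^ 3 / 2 - s / 4 * (x ^ 2 * y ^ 2)) * hs2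
    rw [e]
    positivity
  have i1 := rot_int1 f
  have i3 := rot_int3 hB f
  have i4 := rot_int4 hB f
  have h1 : ∀ y : ℝ, 0 ≤ s / 4 * ((∫ ω in A, f ω ^ 4 ∂μ) + h * y ^ 4) -
      (∫ ω in A, f ω ^ 3 ∂μ) * y + (∫ ω in A, f ω ∂μ) * y ^ 3 := by
    intro y
    have h2 : 0 ≤ ∫ ω in A, (s / 4 * (f ω ^ 4 + y ^ 4) - f ω ^ 3 * y + f ω * y ^ 3) ∂μ :=
      integral_nonneg fun ω => key _ _
    rw [integral_add, integral_sub, integral_const_mul, integral_add, integral_mul_const,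
      integral_mul_const, setIntegral_const, hAh, smul_eq_mul] at h2
    · exact h2
    · exact i4.integrableOn
    · exact integrable_const _
    · exact ((i4.integrableOn.add (integrable_const _)).const_mul _)
    · exact i3.integrableOn.mul_const _
    · exact ((i4.integrableOn.add (integrable_const _)).const_mul _).sub
        (i3.integrableOn.mul_const _)
    · exact i1.integrableOn.mul_const _
  have h3 : 0 ≤ ∫ ω in B, (s / 4 * ((∫ ω in A, f ω ^ 4 ∂μ) + h * f ω ^ 4) -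
      (∫ ω in A, f ω ^ 3 ∂μ) * f ω + (∫ ω in A, f ω ∂μ) * f ω ^ 3) ∂μ :=
    integral_nonneg fun ω => h1 _
  rw [integral_add, integral_sub, integral_const_mul, integral_add, integral_const_mul,
    integral_const_mul, integral_const_mul, setIntegral_const, hBh, smul_eq_mul] at h3
  · linarith
  · exact integrable_const _
  · exact i4.integrableOn.const_mul _
  · exact (((integrable_const _).add (i4.integrableOn.const_mul _)).const_mul _)
  · exact i1.integrableOn.const_mul _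
  · exact (((integrable_const _).add (i4.integrableOn.const_mul _)).const_mul _).sub
      (i1.integrableOn.const_mul _)
  · exact i3.integrableOn.const_mul _

/-- the operator -/
noncomputable def rot_lin (μ : Measure Ω) [IsFiniteMeasure μ] {A B : Set Ω}
    (hA : MeasurableSet A) (hB : MeasurableSet B) (h : ℝ) : Lp ℝ 4 μ →ₗ[ℝ] Lp ℝ 4 μ where
  toFun f := h⁻¹ • ((∫ ω in B, f ω ∂μ) • ind μ hA - (∫ ω in A, f ω ∂μ) • ind μ hB)
  map_add' f g := by
    rw [rot_add, rot_add, add_smul, add_smul, ← smul_add]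
    congr 1
    abel
  map_smul' c f := by
    have e1 : ∀ t : ℝ, h⁻¹ * (c * t) = c * (h⁻¹ * t) := fun t => by ring
    rw [rot_smul, rot_smul, RingHom.id_apply]
    simp only [smul_sub, smul_smul, e1]

lemma rot_coe {A B : Set Ω} (hA : MeasurableSet A) (hB : MeasurableSet B) (h : ℝ)
    (f : Lp ℝ 4 μ) : ∀ᵐ ω ∂μ, (rot_lin μ hA hB h f) ω =
      h⁻¹ * ((∫ ω in B, f ω ∂μ) * A.indicator (fun _ => (1 : ℝ)) ω -
        (∫ ω in A, f ω ∂μ) * B.indicator (fun _ => (1 : ℝ)) ω) := by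
  have h1 := Lp.coeFn_smul h⁻¹ ((∫ ω in B, f ω ∂μ) • ind μ hA - (∫ ω in A, f ω ∂μ) • ind μ hB)
  have h2 := Lp.coeFn_sub ((∫ ω in B, f ω ∂μ) • ind μ hA) ((∫ ω in A, f ω ∂μ) • ind μ hB)
  have h3 := Lp.coeFn_smul (∫ ω in B, f ω ∂μ) (ind μ hA)
  have h4 := Lp.coeFn_smul (∫ ω in A, f ω ∂μ) (ind μ hB)
  have h5 : ⇑(ind μ hA) =ᵐ[μ] A.indicator (fun _ => (1 : ℝ)) := indicatorConstLp_coeFn
  have h6 : ⇑(ind μ hB) =ᵐ[μ] B.indicator (fun _ => (1 : ℝ)) := indicatorConstLp_coeFn
  filter_upwards [h1, h2, h3, h4, h5, h6] with ω h1 h2 h3 h4 h5 h6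
  rw [show (rot_lin μ hA hB h f) = h⁻¹ • ((∫ ω in B, f ω ∂μ) • ind μ hA -
    (∫ ω in A, f ω ∂μ) • ind μ hB) from rfl, h1, Pi.smul_apply, h2, Pi.sub_apply, h3, h4,
    Pi.smul_apply, Pi.smul_apply, h5, h6]
  simp only [smul_eq_mul]

lemma rot_norm4 (hBAS : ST_BAS) {A B : Set Ω} (hA : MeasurableSet A) (hB : MeasurableSet B)
    (hd : Disjoint A B) {h : ℝ} (hh : 0 < h) (hAh : μ.real A = h) (hBh : μ.real B = h)
    (f : Lp ℝ 4 μ) : ‖rot_lin μ hA hB h f‖ ^ 4 =
      (h ^ 3)⁻¹ * ((∫ ω in B, f ω ∂μ) ^ 4 + (∫ ω in A, f ω ∂μ) ^ 4) := by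
  rw [(hBAS Ω μ).2.1]
  set a := ∫ ω in A, f ω ∂μ
  set b := ∫ ω in B, f ω ∂μ
  have h1 : ∫ ω, (rot_lin μ hA hB h f) ω ^ 4 ∂μ =
      ∫ ω, ((h⁻¹) ^ 4 * b ^ 4 * A.indicator (fun _ => (1 : ℝ)) ω +
        (h⁻¹) ^ 4 * a ^ 4 * B.indicator (fun _ => (1 : ℝ)) ω) ∂μ := by
    refine integral_congr_ae ?_
    filter_upwards [rot_coe hA hB h f] with ω h1
    rw [h1]
    by_cases hωA : ω ∈ A
    · have hωB : ω ∉ B := fun h => (Set.disjoint_left.1 hd hωA h).elim
      rw [Set.indicator_of_mem hωA, Set.indicator_of_notMem hωB]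
      ring
    · by_cases hωB : ω ∈ B
      · rw [Set.indicator_of_mem hωB, Set.indicator_of_notMem hωA]
        ring
      · rw [Set.indicator_of_notMem hωA, Set.indicator_of_notMem hωB]
        ring
  have hi : ∀ {C : Set Ω}, MeasurableSet C →
      Integrable (C.indicator (fun _ => (1 : ℝ))) μ := fun hC =>
    (integrable_const (1 : ℝ)).indicator hC
  have hv : ∀ {C : Set Ω}, MeasurableSet C → μ.real C = h →
      ∫ ω, C.indicator (fun _ => (1 : ℝ)) ω ∂μ = h := by
    intro C hC hCh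
    rw [integral_indicator hC, setIntegral_const, hCh, smul_eq_mul, mul_one]
  rw [h1, integral_add ((hi hA).const_mul _) ((hi hB).const_mul _), integral_const_mul,
    integral_const_mul, hv hA hAh, hv hB hBh]
  field_simp

lemma rot_cub (hBAS : ST_BAS) {A B : Set Ω} (hA : MeasurableSet A) (hB : MeasurableSet B)
    (h : ℝ) (f : Lp ℝ 4 μ) : cub f (rot_lin μ hA hB h f) =
      h⁻¹ * ((∫ ω in A, f ω ^ 3 ∂μ) * (∫ ω in B, f ω ∂μ) -
        (∫ ω in B, f ω ^ 3 ∂μ) * (∫ ω in A, f ω ∂μ)) := by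
  unfold cub
  set a := ∫ ω in A, f ω ∂μ
  set b := ∫ ω in B, f ω ∂μ
  have h1 : ∫ ω, (f ω) ^ 3 * (rot_lin μ hA hB h f) ω ∂μ =
      ∫ ω, (h⁻¹ * b * A.indicator (fun ω => f ω ^ 3) ω -
        h⁻¹ * a * B.indicator (fun ω => f ω ^ 3) ω) ∂μ := by
    refine integral_congr_ae ?_
    filter_upwards [rot_coe hA hB h f] with ω h1
    rw [h1]
    by_cases hωA : ω ∈ A <;> by_cases hωB : ω ∈ B <;> simp [hωA, hωB] <;> ring
  have hi : ∀ {C : Set Ω}, MeasurableSet C →
      Integrable (C.indicator (fun ω => f ω ^ 3)) μ := fun hC =>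
    (rot_int3 hBAS f).indicator hC
  rw [h1, integral_sub ((hi hA).const_mul _) ((hi hB).const_mul _), integral_const_mul,
    integral_const_mul, integral_indicator hA, integral_indicator hB]
  ring

end

theorem st_ROT (hHALF : ST_HALF) (hBAS : ST_BAS) : ST_ROT := by
  intro Ω _ μ _ hμ hat
  obtain ⟨B, -, hB, hBe⟩ := hHALF Ω μ hat Set.univ MeasurableSet.univ
  set A := Set.univ \ B with hAdef
  have hA : MeasurableSet A := MeasurableSet.univ.diff hB
  have hd : Disjoint A B := Set.disjoint_sdiff_left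
  have hU : A ∪ B = Set.univ := by rw [hAdef]; simp
  set h := μ.real A with hh
  have hAh : μ.real A = h := rfl
  have hBh : μ.real B = h := by rw [hh, Measure.real, Measure.real, hBe]
  have hh0 : 0 < h := by
    rcases (measureReal_nonneg (μ := μ) (s := A)).eq_or_lt with h0 | h0
    · exfalso
      apply hμ
      rw [← Measure.measure_univ_eq_zero, ← hU]
      have h1 : μ A = 0 := by
        have := (measureReal_eq_zero_iff (μ := μ) (s := A)).1 h0.symm
        exact this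
      rw [measure_union_null_iff]
      exact ⟨h1, by rw [hBe]; exact h1⟩
    · exact h0
  have hsplit : ∀ F : Ω → ℝ, Integrable F μ → (∫ ω in A, F ω ∂μ) + ∫ ω in B, F ω ∂μ =
      ∫ ω, F ω ∂μ := by
    intro F hF
    rw [← setIntegral_union hd hB hF.integrableOn hF.integrableOn, hU, setIntegral_univ]
  have hnorm := fun f : Lp ℝ 4 μ => rot_norm4 hBAS hA hB hd hh0 hAh hBh f
  have hle : ∀ f : Lp ℝ 4 μ, ‖rot_lin μ hA hB h f‖ ≤ 1 * ‖f‖ := by
    intro f
    rw [one_mul]
    refine le_of_pow_le_pow_left₀ (n := 4) (by norm_num) (norm_nonneg _) ?_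
    rw [hnorm, (hBAS Ω μ).2.1 f, ← hsplit _ (rot_int4 hBAS f)]
    have h1 := rot_jensen hBAS f hh0 hAh
    have h2 := rot_jensen hBAS f hh0 hBh
    rw [inv_mul_le_iff₀ (by positivity)]
    linarith
  set T : Lp ℝ 4 μ →L[ℝ] Lp ℝ 4 μ := (rot_lin μ hA hB h).mkContinuous 1 hle with hT
  have hTf : ∀ f, T f = rot_lin μ hA hB h f := fun f => rfl
  refine ⟨T, ?_, ?_, ?_⟩
  · apply le_antisymm ((rot_lin μ hA hB h).mkContinuous_norm_le zero_le_one hle)
    set e := ind μ (MeasurableSet.univ : MeasurableSet (Set.univ : Set Ω)) with he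
    have h1 : ∀ {C : Set Ω}, MeasurableSet C → μ.real C = h → ∫ ω in C, e ω ∂μ = h := by
      intro C hC hCh
      rw [he, rot_ind hC MeasurableSet.univ, Set.inter_univ, hCh]
    have h2 : ‖T e‖ ^ 4 = 2 * h := by
      rw [hTf, hnorm, h1 hA hAh, h1 hB hBh]
      field_simp
      ring
    have h3 : ‖e‖ ^ 4 = 2 * h := by
      rw [(hBAS Ω μ).2.1]
      have h4 : ∫ ω, e ω ^ 4 ∂μ = ∫ ω, (1 : ℝ) ∂μ := by
        refine integral_congr_ae ?_
        have h5 : ⇑e =ᵐ[μ] Set.univ.indicator (fun _ => (1 : ℝ)) := indicatorConstLp_coeFn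
        filter_upwards [h5] with ω h5
        rw [h5, Set.indicator_univ, one_pow]
      rw [h4, ← hsplit _ (integrable_const _), setIntegral_const, setIntegral_const, hAh, hBh]
      simp
      ring
    have h4 : ‖T e‖ = ‖e‖ := by
      have := h2.trans h3.symm
      exact (pow_left_inj₀ (norm_nonneg _) (norm_nonneg _) (by norm_num)).1 this
    have h5 : 0 < ‖e‖ := by
      rcases (norm_nonneg e).eq_or_lt with h0 | h0
      · rw [← h0] at h3
        norm_num at h3
        linarith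
      · exact h0
    have h6 := T.le_opNorm e
    rw [h4] at h6
    exact (le_mul_iff_one_le_left h5).1 h6
  · intro S hS ε hε
    obtain ⟨P, hPs, hP, hPe⟩ := hHALF Ω μ hat (S ∩ A) (hS.inter hA)
    obtain ⟨Q, hQs, hQ, hQe⟩ := hHALF Ω μ hat (S ∩ B) (hS.inter hB)
    have hP' : MeasurableSet ((S ∩ A) \ P) := (hS.inter hA).diff hP
    have hQ' : MeasurableSet ((S ∩ B) \ Q) := (hS.inter hB).diff hQ
    have hdAB := Set.disjoint_left.1 hd
    refine ⟨P ∪ Q, ((S ∩ A) \ P) ∪ ((S ∩ B) \ Q), hP.union hQ, hP'.union hQ', ?_, ?_, ?_, ?_⟩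
    · ext ω
      have hω : ω ∈ A ∨ ω ∈ B := by
        have := Set.mem_univ ω
        rwa [← hU] at this
      have h1 := @hPs ω
      have h2 := @hQs ω
      simp only [Set.mem_union, Set.mem_sdiff, Set.mem_inter_iff] at *
      tauto
    · rw [Set.disjoint_left]
      intro ω
      have h1 := @hPs ω
      have h2 := @hQs ω
      have h3 := @hdAB ω
      simp only [Set.mem_union, Set.mem_sdiff, Set.mem_inter_iff] at *
      tauto
    · rw [measure_union _ hQ, measure_union _ hQ', hPe, hQe]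
      · rw [Set.disjoint_left]
        intro ω
        have h3 := @hdAB ω
        simp only [Set.mem_sdiff, Set.mem_inter_iff]
        tauto
      · rw [Set.disjoint_left]
        intro ω
        have h1 := @hPs ω
        have h2 := @hQs ω
        have h3 := @hdAB ω
        simp only [Set.mem_inter_iff] at *
        tauto
    · have hz : T (indicatorConstLp 4 (hP.union hQ) (measure_ne_top μ _) (1 : ℝ)
        - indicatorConstLp 4 (hP'.union hQ') (measure_ne_top μ _) (1 : ℝ)) = 0 := by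
        have e1 : ∀ {C : Set Ω} (hC : MeasurableSet C), ∫ ω in C,
            (indicatorConstLp 4 (hP.union hQ) (measure_ne_top μ _) (1 : ℝ)
            - indicatorConstLp 4 (hP'.union hQ') (measure_ne_top μ _) (1 : ℝ) : Lp ℝ 4 μ) ω ∂μ =
            μ.real (C ∩ (P ∪ Q)) - μ.real (C ∩ (((S ∩ A) \ P) ∪ ((S ∩ B) \ Q))) := by
          intro C hC
          have := rot_sub (ind μ (hP.union hQ)) (ind μ (hP'.union hQ')) C
          rw [rot_ind hC, rot_ind hC] at this
          exact this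
        have e2 : A ∩ (P ∪ Q) = P := by
          ext ω
          have h1 := @hPs ω
          have h2 := @hQs ω
          have h3 := @hdAB ω
          simp only [Set.mem_union, Set.mem_inter_iff] at *
          tauto
        have e3 : B ∩ (P ∪ Q) = Q := by
          ext ω
          have h1 := @hPs ω
          have h2 := @hQs ω
          have h3 := @hdAB ω
          simp only [Set.mem_union, Set.mem_inter_iff] at *
          tauto
        have e4 : A ∩ (((S ∩ A) \ P) ∪ ((S ∩ B) \ Q)) = (S ∩ A) \ P := by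
          ext ω
          have h3 := @hdAB ω
          simp only [Set.mem_union, Set.mem_inter_iff, Set.mem_sdiff]
          tauto
        have e5 : B ∩ (((S ∩ A) \ P) ∪ ((S ∩ B) \ Q)) = (S ∩ B) \ Q := by
          ext ω
          have h3 := @hdAB ω
          simp only [Set.mem_union, Set.mem_inter_iff, Set.mem_sdiff]
          tauto
        have h1 : μ.real P = μ.real ((S ∩ A) \ P) := by rw [Measure.real, Measure.real, hPe]
        have h2 : μ.real Q = μ.real ((S ∩ B) \ Q) := by rw [Measure.real, Measure.real, hQe]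
        rw [hTf]
        change h⁻¹ • ((∫ ω in B, _ ∂μ) • ind μ hA - (∫ ω in A, _ ∂μ) • ind μ hB) = 0
        rw [e1 hA, e1 hB, e2, e3, e4, e5, h1, h2, sub_self, sub_self]
        simp
      change ‖T _‖ < ε
      rw [hz, norm_zero]
      exact hε
  · intro f
    rw [hTf, rot_cub hBAS hA hB h f, (hBAS Ω μ).2.1 f, ← hsplit _ (rot_int4 hBAS f), abs_mul,
      abs_of_pos (inv_pos.2 hh0), inv_mul_le_iff₀ hh0, abs_le]
    have h1 := rot_double hBAS f hAh hBh
    have h2 := rot_double hBAS f hBh hAh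
    constructor <;> linarith

end Pool.Agent.Helper66.NI
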